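import Pool.Agent.Y400.SG.Conv

/-!
# Shortest exploding paths in scale-free percolation: general laws

For all vertex-weight laws with `P (W > t) = ℓ (t) t ^ (-(τ - 1))` and all edge-weight laws with
`P (L ≤ t) = m (1 / t) t ^ κ` near `0`, `κ > 0`, where `ℓ` and `m` lie between
`exp (-C (1 + log t) ^ θ)` and `exp (C (1 + log t) ^ θ)` for some `0 ≤ θ < 1`: almost surely every
shortest exploding path `v` satisfies `‖v n‖ ≤ exp (A n ^ (1 / (1 - θ)) log n)` for all large `n`,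
with a deterministic constant `A`.
-/

set_option autoImplicit false

namespace Pool.Agent.Results.MP_c3e920_pr.GeneralLaws

open MeasureTheory ProbabilityTheory Filter Pool.Agent.W823.SFP

theorem result (d : ℕ) (hd : 1 ≤ d) (α lam τ κ θ C : ℝ) (hα : (d : ℝ) < α) (hlam : 0 < lam)
    (hτ : 1 < τ) (hγ1 : 1 < α * (τ - 1) / d) (hγ2 : α * (τ - 1) / d < 2)
    (hκ : 0 < κ) (hθ0 : 0 ≤ θ) (hθ1 : θ < 1) (hC : 0 ≤ C) (μW μL : Measure ℝ)
    [IsProbabilityMeasure μW] [IsProbabilityMeasure μL]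
    -- `P (W ≥ 1) = 1` and `P (W > t) = ℓ (t) t ^ (-(τ - 1))` with
    -- `exp (-C (1 + log t) ^ θ) ≤ ℓ (t) ≤ exp (C (1 + log t) ^ θ)`
    (hW1 : μW (Set.Ici 1) = 1)
    (hW : ∀ t : ℝ, 1 ≤ t →
      ENNReal.ofReal (t ^ (-(τ - 1)) * Real.exp (-(C * (1 + Real.log t) ^ θ))) ≤ μW (Set.Ioi t) ∧
      μW (Set.Ioi t) ≤ ENNReal.ofReal (t ^ (-(τ - 1)) * Real.exp (C * (1 + Real.log t) ^ θ)))
    -- `P (L ≤ t)` is `t ^ κ` near `0`, up to such a factor
    (hL : ∀ t : ℝ, 0 < t → t ≤ 1 →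
      ENNReal.ofReal (t ^ κ * Real.exp (-(C * (1 + Real.log (1 / t)) ^ θ))) ≤ μL (Set.Iic t) ∧
      μL (Set.Iic t) ≤ ENNReal.ofReal (t ^ κ * Real.exp (C * (1 + Real.log (1 / t)) ^ θ))) :
    -- the edge-weights are nonnegative and `I (L) < ∞`
    (μL (Set.Iio 0) = 0 ∧
      IntegrableOn (fun y => quantile μL (Real.exp (-Real.exp y))) (Set.Ioi 0)) ∧
    -- a shortest exploding path exists and every one grows slowly
    ∃ A : ℝ, 0 < A ∧ ∀ᵐ ω ∂(law d μW μL),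
      (∃ v, IsShortest α lam ω 0 v) ∧
      ∀ v, IsShortest α lam ω 0 v →
        (∀ᶠ n : ℕ in atTop,
          nrm (v n) ≤ Real.exp (A * ((n : ℝ) ^ (1 / (1 - θ)) * Real.log n))) ∧
        ∀ b : ℝ, 1 < b → ∀ᶠ n : ℕ in atTop, nrm (v n) < Real.exp (b ^ n) := by
  obtain ⟨K, hK0, hK⟩ := Pool.Agent.Y400.SG.pow_le_lin θ C (κ / 2) hθ0 hθ1 hC (by positivity)
  -- comparison with powers
  have hpow : ∀ t : ℝ, 0 < t → t ≤ 1 →
      Real.exp (C * (1 + Real.log (1 / t)) ^ θ) ≤ Real.exp (K + κ / 2) * t ^ (-(κ / 2)) := by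
    intro t ht0 ht1
    have hl : 0 ≤ Real.log (1 / t) := Real.log_nonneg ((one_le_div ht0).2 ht1)
    have h1 := hK (1 + Real.log (1 / t)) (by linarith)
    have h2 : Real.log (1 / t) = -Real.log t := by rw [one_div, Real.log_inv]
    rw [Real.rpow_def_of_pos ht0, ← Real.exp_add]
    apply Real.exp_le_exp.2
    rw [h2] at h1 ⊢
    linarith
  have hL0 : μL (Set.Iic 0) = 0 := by
    have ht : Tendsto (fun t : ℝ => ENNReal.ofReal (Real.exp (K + κ / 2) * t ^ (κ / 2)))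
        (nhdsWithin 0 (Set.Ioi 0)) (nhds 0) := by
      have h1 : Tendsto (fun t : ℝ => Real.exp (K + κ / 2) * t ^ (κ / 2)) (nhds 0)
          (nhds (Real.exp (K + κ / 2) * 0 ^ (κ / 2))) :=
        (Real.continuousAt_rpow_const 0 (κ / 2) (Or.inr (by positivity))).tendsto.const_mul _
      rw [Real.zero_rpow (by positivity), mul_zero] at h1
      have h2 := (ENNReal.continuous_ofReal.tendsto 0).comp h1
      rw [ENNReal.ofReal_zero] at h2
      exact h2.mono_left nhdsWithin_le_nhds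
    refine nonpos_iff_eq_zero.1 (ge_of_tendsto ht ?_)
    have h3 : Set.Ioc (0 : ℝ) 1 ∈ nhdsWithin (0 : ℝ) (Set.Ioi 0) := Ioc_mem_nhdsGT one_pos
    filter_upwards [h3] with t ht1
    refine (measure_mono (Set.Iic_subset_Iic.2 ht1.1.le)).trans ((hL t ht1.1 ht1.2).2.trans ?_)
    apply ENNReal.ofReal_le_ofReal
    calc t ^ κ * Real.exp (C * (1 + Real.log (1 / t)) ^ θ)
        ≤ t ^ κ * (Real.exp (K + κ / 2) * t ^ (-(κ / 2))) := by
          apply mul_le_mul_of_nonneg_left (hpow t ht1.1 ht1.2) (Real.rpow_nonneg ht1.1.le _)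
      _ = Real.exp (K + κ / 2) * (t ^ κ * t ^ (-(κ / 2))) := by ring
      _ = _ := by
          rw [← Real.rpow_add ht1.1]
          congr 2; ring
  have hint : IntegrableOn (fun y => quantile μL (Real.exp (-Real.exp y))) (Set.Ioi 0) := by
    refine Pool.Agent.Y400.SG.integrable_quantile' μL (κ + κ / 2) (Real.exp (-(K + κ / 2)))
      (by positivity) (Real.exp_pos _) hL0 fun t ht0 ht1 => ?_
    refine le_trans (ENNReal.ofReal_le_ofReal ?_) (hL t ht0 ht1).1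
    have h1 := hpow t ht0 ht1
    have h2 : Real.exp (-(K + κ / 2)) * t ^ (κ / 2) ≤
        Real.exp (-(C * (1 + Real.log (1 / t)) ^ θ)) := by
      have e1 : Real.exp (-(K + κ / 2)) * t ^ (κ / 2) =
          (Real.exp (K + κ / 2) * t ^ (-(κ / 2)))⁻¹ := by
        rw [mul_inv, ← Real.exp_neg, Real.rpow_neg ht0.le, inv_inv]
      rw [e1, Real.exp_neg]
      exact inv_anti₀ (Real.exp_pos _) h1
    have hk : 0 ≤ t ^ κ := Real.rpow_nonneg ht0.le _
    calc Real.exp (-(K + κ / 2)) * t ^ (κ + κ / 2)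
        = t ^ κ * (Real.exp (-(K + κ / 2)) * t ^ (κ / 2)) := by
          rw [Real.rpow_add ht0]; ring
      _ ≤ _ := mul_le_mul_of_nonneg_left h2 hk
  refine ⟨⟨measure_mono_null Set.Iio_subset_Iic_self hL0, hint⟩, ?_⟩
  obtain ⟨G, hG0, h⟩ := Pool.Agent.Y400.SG.hyp_of_laws d hd α lam τ κ θ C hα hlam hτ hγ1 hγ2 hκ
    hθ0 hθ1 hC μW μL hW1 hW hL
  obtain ⟨A, hA0, hA⟩ := Pool.Agent.Y400.SG.main h hθ0 hθ1 hG0 fun j => le_rfl
  refine ⟨A, hA0, ?_⟩
  filter_upwards [hA] with ω hω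
  refine ⟨hω.1, fun v hv => ⟨hω.2 v hv, fun b hb => ?_⟩⟩
  have he : 0 ≤ 1 / (1 - θ) := by
    have : 0 < 1 - θ := by linarith
    positivity
  filter_upwards [hω.2 v hv, Pool.Agent.Y400.SG.slow hA0 he hb] with n h1 h2
  exact lt_of_le_of_lt h1 h2

end Pool.Agent.Results.MP_c3e920_pr.GeneralLaws
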